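import Pool.Agent.Helper3.FJ.Met

/-!
# Complexes of triangles whose links have girth at least six satisfy the link condition
-/

set_option autoImplicit false

namespace Pool.Agent.Helper37.GF

open Pool.Agent.Helper29.BA Pool.Agent.Helper29.PA Pool.Agent.Helper3.FJ

theorem metric_one {V : Type} (X : Cpx V) : X.Metric fun _ _ => 1 :=
  ⟨fun _ _ => rfl, fun _ _ _ => one_pos, fun _ _ _ _ => by norm_num⟩

theorem linkCond_one {V : Type} {X : Cpx V} (h : X.LinkGirth) : X.LinkCond fun _ _ => 1 := by
  intro v k u hu ht
  have hk : 3 ≤ k := by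
    by_contra hk
    exact h v (k + 3) (by omega) (by omega) u hu ht
  have h1 : ∀ i, Cpx.ang (fun _ _ => (1 : ℝ)) v (u i) (u (i + 1)) = Real.pi / 3 := fun i => by
    unfold Cpx.ang
    rw [← Real.arccos_cos (x := Real.pi / 3) (by linarith [Real.pi_pos])
      (by linarith [Real.pi_pos]), Real.cos_pi_div_three]
    norm_num
  simp only [h1]
  rw [Finset.sum_const, Finset.card_univ, ZMod.card, nsmul_eq_mul]
  have h2 : (6 : ℝ) ≤ ((k + 3 : ℕ) : ℝ) := by exact_mod_cast (by omega : 6 ≤ k + 3)
  nlinarith [Real.pi_pos]

/-- The classes with the closure properties of `CatClass` and `ExtClass` contain the cocompact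
groups of automorphisms of complexes of equilateral triangles. -/
theorem triClass {C : ∀ (G : Type) [Group G], Prop} (hC : CatClass C) (hE : ExtClass C) :
    TriClass C :=
  { hE with
    triangle := fun V X G _ _ h1 h2 h3 h4 h5 => hC.cat V X (fun _ _ => 1) G h1 (metric_one X)
      (linkCond_one h2) h3 (fun _ _ _ => rfl) h4 h5 }

end Pool.Agent.Helper37.GF
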